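import Pool.Agent.H.MP_5b3ffa_mp.B

set_option autoImplicit false

namespace Pool.Agent.Results.MP_5b3ffa_mp.Yes
open Pool.Agent.H.MP_5b3ffa_mp Matrix Complex

theorem result {d D : ℕ} (g : Fin D → Matrix (Fin d) (Fin d) ℂ) (c N : ℝ) (hc : 0 < c) (hN : 0 < N)
    (hg : ∀ i, (g i).IsHermitian) (ho : ∀ i j, (g i * g j).trace = if i = j then (c : ℂ) else 0)
    (hl : ∀ i j, ⁅I • g i, I • g j⁆ ∈ Submodule.span ℝ (Set.range fun k => I • g k))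
    {K : Type} [Fintype K] (M : K → Matrix (Fin d) (Fin d) ℂ) (hM : ∀ k, M k ∈ CFO g)
    (hs : ∑ k, (M k)ᴴ * M k = 1) (ψ : Fin d → ℂ) (hψ : star ψ ⬝ᵥ ψ = 1)
    (p : K → ℝ) (hp : ∀ k, p k = (star ψ ⬝ᵥ ((M k)ᴴ * M k) *ᵥ ψ).re) :
    purity g N ψ ≤ ∑ k, p k * purity g N (((√(p k) : ℝ) : ℂ)⁻¹ • M k *ᵥ ψ) := by
  refine main g c N hc hN hg ho (fun i j => ?_) M hM hs ψ hψ p hp
  obtain ⟨a, ha⟩ := (Submodule.mem_span_range_iff_exists_fun ℝ).1 (hl i j)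
  rw [Ring.lie_def, smul_mul_smul_comm, smul_mul_smul_comm, I_mul_I, ← smul_sub, neg_one_smul] at ha
  rw [← Submodule.neg_mem_iff, ← ha]
  exact Submodule.sum_mem _ fun k _ => Submodule.smul_of_tower_mem _ _
    (Submodule.smul_mem _ _ (Submodule.subset_span ⟨k, rfl⟩))

end Pool.Agent.Results.MP_5b3ffa_mp.Yes
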